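import Pool.Agent.H487.ED.Stm
import Pool.Agent.H477.E.LGU
import Pool.Agent.H477.E.Card

set_option autoImplicit false

/-!
Zeros in a window which are not evenly spaced (S_WINE).
-/

open Finset Complex Filter Topology Metric Set MeasureTheory

namespace Pool.Agent.H339.ED

open Pool.Agent.Helper242.KK (FT Ph)
open Pool.Agent.H477.Jen
open Pool.Agent.H477.E
open Pool.Agent.H477.EU (card_windows card_windows2)
open Pool.Agent.H487.ED

/-- `Ev` is monotone in `ε`. -/
theorem ev_mono {ε ε' : ℝ} (h : ε ≤ ε') {k : ℕ} {w : ℂ} (hw : Ev ε k w) : Ev ε' k w := by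
  obtain ⟨h1, h2, a, b, h3, h4, h5, h6, h7, h8, h9⟩ := hw
  exact ⟨h1, h2, a, b, h3, h4, h5, h6, h7, h8.trans h, h9.trans h⟩

/-- `LGd` is monotone in `η`. -/
theorem lgd_mono {f : ℂ → ℂ} {k : ℕ} {lam t η η' : ℝ} (hlam : 0 < lam) (h : η ≤ η')
    (hf : LGd f k lam t η) : LGd f k lam t η' := by
  have hk : (0 : ℝ) ≤ k := Nat.cast_nonneg k
  have hηk : η * k ≤ η' * k := mul_le_mul_of_nonneg_right h hk
  refine ⟨hf.ne, fun z h1 h2 h3 => ?_, fun z h1 h2 => ?_⟩
  · refine le_trans ?_ (hf.low z h1 h2 h3)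
    refine mul_le_mul_of_nonneg_left (Real.exp_le_exp.2 ?_) (norm_nonneg _)
    linarith
  · refine (hf.up z h1 h2).trans ?_
    refine mul_le_mul_of_nonneg_left (Real.exp_le_exp.2 ?_) (norm_nonneg _)
    have h3 : 0 ≤ 1 + (|z.re - t| + |z.im|) / (k / lam) := by positivity
    have := mul_le_mul_of_nonneg_right hηk h3
    linarith

/-- A zero near a good point is evenly spaced. -/
theorem ev_local {ε lam t : ℝ} {k : ℕ} {w : ℂ} (hε : 0 < ε) (hε1 : ε ≤ 1 / 2) (hlam : 0 < lam)
    (hk : 4000 ≤ k)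
    (h1 : ∀ a b : ℝ, t - k / lam / 16 ≤ a → b ≤ t + k / lam / 16 →
      (1 + ε / 3) * (Real.pi / lam) ≤ b - a → ∃ x : ℝ, a ≤ x ∧ x ≤ b ∧ iteratedDeriv k (FT Ph) x = 0)
    (h2 : ∀ x y : ℝ, t - k / lam / 16 ≤ x → x < y → y ≤ t + k / lam / 16 →
      iteratedDeriv k (FT Ph) x = 0 → iteratedDeriv k (FT Ph) y = 0 →
      (1 - ε / 3) * (Real.pi / lam) ≤ y - x)
    (h3 : ∀ z : ℂ, ‖z - t‖ ≤ k / lam / 16 → iteratedDeriv k (FT Ph) z = 0 →
      z.im = 0 ∧ iteratedDeriv (k + 1) (FT Ph) z ≠ 0)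
    (h4 : ∀ z : ℂ, iteratedDeriv k (FT Ph) z = 0 → |z.re - w.re| ≤ 2 * (Real.pi / lam) →
      |z.im| ≤ k / lam / 40)
    (hw : iteratedDeriv k (FT Ph) w = 0) (hwi : w.im = 0) (hwt : |w.re - t| ≤ k / lam / 64)
    (hq : |Real.log w.re / (2 * lam) - 1| ≤ ε / 12) : Ev ε k w := by
  have hpi := Real.pi_pos
  have hpi4 := Real.pi_lt_four
  set r : ℝ := k / lam with hr
  set D : ℝ := Real.pi / lam with hD
  have hD0 : 0 < D := by positivity
  have hk' : (4000 : ℝ) ≤ k := by exact_mod_cast hk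
  have hDr : D ≤ r / 1000 := by
    rw [hD, hr, div_div, div_le_div_iff₀ hlam (by positivity)]
    nlinarith
  have hr0 : 0 < r := by linarith
  obtain ⟨t1, t2⟩ := abs_le.1 hwt
  have hεD : 0 < ε * D := by positivity
  have hεD2 : ε * D ≤ D / 2 := by nlinarith
  have hwre : ((w.re : ℝ) : ℂ) = w := by
    apply Complex.ext
    · simp
    · simp [hwi]
  have hw' : iteratedDeriv k (FT Ph) (w.re : ℝ) = 0 := by rw [hwre]; exact hw
  -- membership in the disc
  have hdisc : ∀ z : ℂ, |z.re - w.re| ≤ 2 * D → |z.im| ≤ r / 40 → ‖z - t‖ ≤ r / 16 := by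
    intro z hz1 hz2
    obtain ⟨z1, z2⟩ := abs_le.1 hz1
    have h5 : |z.re - t| ≤ r / 40 := by
      rw [abs_le]
      constructor <;> linarith
    have h6 : ‖z - t‖ ≤ |(z - t).re| + |(z - t).im| := Complex.norm_le_abs_re_add_abs_im _
    simp only [sub_re, sub_im, ofReal_re, ofReal_im, sub_zero] at h6
    linarith
  -- the zero to the right
  obtain ⟨b, hb1, hb2, hb3⟩ := h1 (w.re + ε * D / 6) (w.re + (1 + ε / 2) * D) (by linarith)
    (by linarith) (by
      have : (w.re + (1 + ε / 2) * D) - (w.re + ε * D / 6) = (1 + ε / 3) * D := by ring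
      rw [this])
  have hb4 : (1 - ε / 3) * D ≤ b - w.re := h2 w.re b (by linarith) (by linarith) (by linarith) hw' hb3
  -- the zero to the left
  obtain ⟨a, ha1, ha2, ha3⟩ := h1 (w.re - (1 + ε / 2) * D) (w.re - ε * D / 6) (by linarith)
    (by linarith) (by
      have : (w.re - ε * D / 6) - (w.re - (1 + ε / 2) * D) = (1 + ε / 3) * D := by ring
      rw [this])
  have ha4 : (1 - ε / 3) * D ≤ w.re - a := h2 a w.re (by linarith) (by linarith) (by linarith) ha3 hw'
  obtain ⟨q1, q2⟩ := abs_le.1 hq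
  -- the ratios
  have hratio : ∀ x : ℝ, (1 - ε / 3) * D ≤ x → x ≤ (1 + ε / 2) * D →
      |x * Real.log w.re / (2 * Real.pi) - 1| ≤ ε := by
    intro x hx1 hx2
    have e1 : x * Real.log w.re / (2 * Real.pi) = (x / D) * (Real.log w.re / (2 * lam)) := by
      rw [hD]
      field_simp
    rw [e1]
    obtain ⟨u, hu⟩ : ∃ u, u = x / D := ⟨_, rfl⟩
    obtain ⟨q, hq'⟩ : ∃ q, q = Real.log w.re / (2 * lam) := ⟨_, rfl⟩
    have hu1 : 1 - ε / 3 ≤ u := by rw [hu, le_div_iff₀ hD0]; exact hx1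
    have hu2 : u ≤ 1 + ε / 2 := by rw [hu, div_le_iff₀ hD0]; exact hx2
    rw [← hu, ← hq']
    rw [← hq'] at q1 q2
    rw [abs_le]
    have hq0 : 0 < q := by linarith
    constructor
    · nlinarith
    · nlinarith
  refine ⟨hwi, (h3 w (hdisc w (by rw [sub_self, abs_zero]; positivity)
    (by rw [hwi, abs_zero]; positivity)) hw).2, a, b, by linarith, by linarith, ha3, hb3, ?_,
    hratio _ ha4 (by linarith), hratio _ hb4 (by linarith)⟩
  intro z hz hz1 hz2
  have hzw : |z.re - w.re| ≤ 2 * D := by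
    rw [abs_le]
    constructor <;> linarith
  have hzi := (h3 z (hdisc z hzw (h4 z hz hzw)) hz).1
  have hzre : ((z.re : ℝ) : ℂ) = z := by
    apply Complex.ext
    · simp
    · simp [hzi]
  have hz' : iteratedDeriv k (FT Ph) (z.re : ℝ) = 0 := by rw [hzre]; exact hz
  rcases lt_trichotomy z.re w.re with h | h | h
  · exfalso
    have h5 := h2 z.re w.re (by linarith) h (by linarith) hz' hw'
    have h6 := h2 a z.re (by linarith) hz1 (by linarith) ha3 hz'
    linarith
  · rw [← hzre, ← hwre, h]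
  · exfalso
    have h5 := h2 w.re z.re (by linarith) h (by linarith) hw' hz'
    have h6 := h2 z.re b (by linarith) hz2 (by linarith) hz' hb3
    linarith

theorem logq {ε T x : ℝ} (hε : 0 < ε) (hT : 0 < T) (hL : 48 / ε + 10 ≤ Real.log T)
    (hx : |x - T| ≤ T / (10 * Real.log T)) : |Real.log x / (2 * lamT T) - 1| ≤ ε / 12 := by
  have he : 0 < 48 / ε := by positivity
  have h1 : T / (10 * Real.log T) ≤ T / 100 := by
    apply div_le_div_of_nonneg_left hT.le (by norm_num)
    linarith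
  obtain ⟨x1, x2⟩ := abs_le.1 (hx.trans h1)
  have hx0 : 0 < x := by linarith
  have hl2 := Real.log_two_lt_d9
  have hl2' := Real.log_two_gt_d9
  have h2 : Real.log x ≤ Real.log T + 1 := by
    calc Real.log x ≤ Real.log (2 * T) := Real.log_le_log hx0 (by linarith)
      _ = Real.log 2 + Real.log T := Real.log_mul (by norm_num) hT.ne'
      _ ≤ _ := by linarith
  have h3 : Real.log T - 1 ≤ Real.log x := by
    have h4 : Real.log T ≤ Real.log (2 * x) := Real.log_le_log hT (by linarith)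
    rw [Real.log_mul (by norm_num) hx0.ne'] at h4
    linarith
  have h4 : 2 * lamT T = Real.log T - Real.log (2 * Real.pi) := by
    rw [lamT_eq hT]
    ring
  have h5 := log_two_pi_le
  have h6 : 0 ≤ Real.log (2 * Real.pi) := Real.log_nonneg (by linarith [Real.pi_gt_three])
  have h7 : 48 / ε + 7 ≤ 2 * lamT T := by linarith
  have h8 : 0 < 2 * lamT T := by linarith
  have h9 : Real.log x / (2 * lamT T) - 1 = (Real.log x - 2 * lamT T) / (2 * lamT T) := by
    rw [sub_div, div_self h8.ne']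
  rw [h9, abs_div, abs_of_pos h8, div_le_div_iff₀ h8 (by norm_num)]
  have h10 : |Real.log x - 2 * lamT T| ≤ 4 := by
    rw [abs_le]
    constructor <;> linarith
  have h11 : 48 ≤ ε * (2 * lamT T) := by
    have h12 : ε * (48 / ε + 7) ≤ ε * (2 * lamT T) := mul_le_mul_of_nonneg_left h7 hε.le
    have h13 : ε * (48 / ε + 7) = 48 + 7 * ε := by field_simp
    linarith
  linarith

open Classical in
theorem wine_half (hLG : S_LGU) (hLOC : S_LOC) (hSPC : S_SPC) (hJEN : S_JEN) (hRUN : S_RUN)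
    (hB0 : S_B0U) (hCH : S_CHAINU) (hU : S_UNITU) (ε : ℝ) (hε : 0 < ε) (hε1 : ε ≤ 1 / 2) :
    ∃ c : ℝ, 0 < c ∧ ∃ k0 : ℕ, ∃ T0 : ℝ, ∀ T : ℝ, T0 ≤ T → ∀ k : ℕ, k0 ≤ k →
    300 * (k : ℝ) + 300 ≤ Real.log T → ∀ S : Finset ℂ,
    (∀ w ∈ S, iteratedDeriv k (FT Ph) w = 0 ∧ ¬ Ev ε k w ∧ |w.re - T| ≤ T / (10 * Real.log T)) →
    ∑ w ∈ S, (analyticOrderNatAt (iteratedDeriv k (FT Ph)) w : ℝ) ≤ Real.exp (-c * k) * T := by
  obtain ⟨ηa, hηa, hηa1, kLa, hloca⟩ := hLOC
  obtain ⟨ηb, hηb, hηb1, kLb, hlocb⟩ := hSPC (ε / 3) (by positivity)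
  obtain ⟨η0, hη0d⟩ : ∃ η0, η0 = min ηa ηb := ⟨_, rfl⟩
  have hη0 : 0 < η0 := by rw [hη0d]; exact lt_min hηa hηb
  have hη1 : η0 ≤ 1 := by rw [hη0d]; exact (min_le_left _ _).trans hηa1
  obtain ⟨kL, hkLd⟩ : ∃ kL, kL = max kLa (max kLb 4000) := ⟨_, rfl⟩
  obtain ⟨c1, hc1, k1, T1, hlg⟩ := hLG η0 hη0 hη1
  obtain ⟨c2, hc2, k2, T2, hb0⟩ := hB0
  obtain ⟨CU, T0u, hCU, hunit⟩ := hU
  set c : ℝ := min c1 c2 with hc
  have hc0 : 0 < c := lt_min hc1 hc2
  -- absorb constants
  have habs : ∀ᶠ k : ℕ in atTop, 257 * (1536 + 8 * CU) * (1 + 8 * Real.sqrt k) * Real.exp (-c * k) ≤ Real.exp (-(c / 2) * k) := by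
    have h1 : ∀ᶠ x : ℝ in atTop, 257 * (1536 + 8 * CU) * (1 + 8 * x) ≤ Real.exp (c / 2 * x) := by
      have h2 := (isLittleO_pow_exp_pos_mul_atTop 1 (show 0 < c / 2 by positivity)).bound
        (show (0:ℝ) < 1 / (257 * (1536 + 8 * CU) * 9) by positivity)
      filter_upwards [h2, eventually_ge_atTop 1] with x h3 h4
      rw [pow_one, Real.norm_eq_abs, Real.norm_eq_abs, abs_of_nonneg (by linarith), abs_of_pos (Real.exp_pos _)] at h3
      calc 257 * (1536 + 8 * CU) * (1 + 8 * x) ≤ 257 * (1536 + 8 * CU) * (9 * x) := by gcongr; linarith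
        _ ≤ 257 * (1536 + 8 * CU) * (9 * (1 / (257 * (1536 + 8 * CU) * 9) * Real.exp (c / 2 * x))) := by gcongr
        _ = _ := by field_simp
    filter_upwards [tendsto_natCast_atTop_atTop.eventually h1, eventually_ge_atTop 1] with k h3 h4
    have h5 : Real.sqrt k ≤ k := by
      rw [Real.sqrt_le_left (by positivity)]
      have : (1:ℝ) ≤ k := by exact_mod_cast h4
      nlinarith
    calc 257 * (1536 + 8 * CU) * (1 + 8 * Real.sqrt k) * Real.exp (-c * k)
        ≤ 257 * (1536 + 8 * CU) * (1 + 8 * k) * Real.exp (-c * k) := by gcongr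
      _ ≤ Real.exp (c / 2 * k) * Real.exp (-c * k) := by gcongr
      _ = _ := by rw [← Real.exp_add]; congr 1; ring
  obtain ⟨k3, hk3⟩ := eventually_atTop.1 habs
  refine ⟨c / 2, by positivity, max (max kL k1) (max k2 (max k3 1)), max (max T1 T2) (max 4 (max (2 * T0u) (Real.exp (48 / ε + 10)))), fun T hTT k hk hbig S hS => ?_⟩
  have hkL : kL ≤ k := (le_max_left _ _).trans ((le_max_left _ _).trans hk)
  have hkk1 : k1 ≤ k := (le_max_right _ _).trans ((le_max_left _ _).trans hk)
  have hkk2 : k2 ≤ k := (le_max_left _ _).trans ((le_max_right _ _).trans hk)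
  have hkk3 : k3 ≤ k := (le_max_left _ _).trans ((le_max_right _ _).trans ((le_max_right _ _).trans hk))
  have hkk4 : 1 ≤ k := (le_max_right _ _).trans ((le_max_right _ _).trans ((le_max_right _ _).trans hk))
  have hfin := hk3 k hkk3
  have hchain := hCH k hkk4
  have hk0 : (0:ℝ) < k := by exact_mod_cast hkk4
  have hk1' : (1:ℝ) ≤ k := by exact_mod_cast hkk4
  have hsq1 : 1 ≤ Real.sqrt k := by rw [Real.one_le_sqrt]; exact hk1'
  have hsqk : Real.sqrt k ≤ k := by
    rw [Real.sqrt_le_left (by positivity)]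
    nlinarith
  have hTbig' : max 4 (max (2 * T0u) (Real.exp (48 / ε + 10))) ≤ T := (le_max_right _ _).trans hTT
  have hTbig : max 4 (2 * T0u) ≤ T := max_le ((le_max_left _ _).trans hTbig')
    ((le_max_left _ _).trans ((le_max_right _ _).trans hTbig'))
  have hTexp : Real.exp (48 / ε + 10) ≤ T := (le_max_right _ _).trans ((le_max_right _ _).trans hTbig')
  have hTpos : 0 < T := by
    have := (le_max_left 4 (2 * T0u)).trans hTbig
    linarith
  have hLeps : 48 / ε + 10 ≤ Real.log T := (Real.le_log_iff_exp_le hTpos).2 hTexp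
  have hkLa : kLa ≤ k := by
    have : kLa ≤ kL := by rw [hkLd]; exact le_max_left _ _
    exact this.trans hkL
  have hkLb : kLb ≤ k := by
    have : kLb ≤ kL := by rw [hkLd]; exact (le_max_left _ _).trans (le_max_right _ _)
    exact this.trans hkL
  have hk4000 : 4000 ≤ k := by
    have : 4000 ≤ kL := by rw [hkLd]; exact (le_max_right _ _).trans (le_max_right _ _)
    exact this.trans hkL
  have hrg := rg hTpos hbig
  have hLG := hlg T ((le_max_left _ _).trans ((le_max_left _ _).trans hTT)) k hkk1 hbig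
  have hB0 := hb0 T ((le_max_right _ _).trans ((le_max_left _ _).trans hTT)) k hkk2
  have hlog := hrg.log50
  have hTL : 100 * (1 + Real.sqrt k) ≤ T / Real.log T := by
    have := hrg.TL
    linarith
  obtain ⟨B, hBm, hBv, hBt⟩ := hLG
  set L := Real.log T with hL
  set lam := lamT T with hlam
  have hT4 : 4 ≤ T := (le_max_left _ _).trans hTbig
  have hT0 : 0 < T := by linarith
  have hTu : 2 * T0u ≤ T := (le_max_right _ _).trans hTbig
  have hL0 : 0 < L := by linarith
  have hlam1 : 1 ≤ lam := hrg.lam1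
  have hlam100 : 100 * k ≤ lam := hrg.lam100
  have hlam0 : 0 < lam := by linarith
  have hpi := Real.pi_pos
  have hlam_le : lam ≤ L / 2 := hrg.le
  have hL_le : L ≤ 4 * lam := hrg.ge
  have hTk := hrg.Tk
  set r : ℝ := k / lam with hr
  have hr0 : 0 < r := by positivity
  have hr100 : r ≤ 1 / 100 := by
    rw [hr, div_le_div_iff₀ hlam0 (by norm_num)]
    linarith
  set ρ : ℝ := r / 64 with hρ
  have hρ0 : 0 < ρ := by positivity
  set Y : ℝ := T / L with hY
  have hY100 : 100 * (1 + Real.sqrt k) ≤ Y := hTL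
  have hY0 : 0 < Y := by positivity
  have e10 : T / (10 * L) = Y / 10 := by rw [hY]; field_simp
  have e4 : T / (4 * L) = Y / 4 := by rw [hY]; field_simp
  have hYT : Y ≤ T / 50 := by
    rw [hY]
    exact div_le_div_of_nonneg_left hT0.le (by norm_num) hlog
  set A : ℝ := T - Y / 10 with hA
  set J : ℕ := ⌈Y / 5 / ρ⌉₊ + 1 with hJ
  have hJ1 : Y / 5 < J * ρ := by
    have h1 := Nat.le_ceil (Y / 5 / ρ)
    have h2 : Y / 5 / ρ < J := by rw [hJ]; push_cast; linarith
    rwa [div_lt_iff₀ hρ0] at h2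
  have hJ2 : J * ρ ≤ Y / 5 + 2 * ρ := by
    have h1 := Nat.ceil_lt_add_one (show 0 ≤ Y / 5 / ρ by positivity)
    have h2 : (J:ℝ) ≤ Y / 5 / ρ + 2 := by rw [hJ]; push_cast; linarith
    calc (J:ℝ) * ρ ≤ (Y / 5 / ρ + 2) * ρ := mul_le_mul_of_nonneg_right h2 hρ0.le
      _ = _ := by field_simp
  have hρs : ρ ≤ 1 / 6400 := by rw [hρ]; linarith
  have hsq0 : 0 ≤ Real.sqrt k := Real.sqrt_nonneg _
  have hY200 : 200 ≤ Y := by linarith
  -- facts on exceptional zeros
  have hSre : ∀ w ∈ S, A ≤ w.re ∧ w.re ≤ T + Y / 10 := by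
    intro w hw
    have := abs_le.1 (hS w hw).2.2
    rw [e10] at this
    constructor <;> linarith
  have hchain' : ∀ w ∈ S, w.im ≠ 0 → ∃ z : ℂ, riemannZeta z = 0 ∧ 1 / 2 < z.re ∧ z.re ≤ 1 ∧
      |w.im| ≤ 11 / 10 * (z.re - 1 / 2) ∧ |z.im - w.re| ≤ 6 / 5 * Real.sqrt k * (z.re - 1 / 2) := by
    intro w hw him
    apply hchain w _ him (hS w hw).1
    have := (hSre w hw).1
    linarith
  have hSim : ∀ w ∈ S, |w.im| ≤ 1 := by
    intro w hw
    by_cases him : w.im = 0
    · rw [him, abs_zero]; norm_num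
    · obtain ⟨z, _, _, h3, h4, _⟩ := hchain' w hw him
      linarith
  set E0 : Set ℂ := {z : ℂ | riemannZeta z = 0 ∧ 1 / 2 + r / 45 ≤ z.re ∧ z.re ≤ 1 ∧ |z.im - T| ≤ T / (4 * L)} with hE0
  set bad1 : ℕ → Prop := fun j => ∀ t : ℝ, A + j * ρ ≤ t → t < A + (j + 1) * ρ → t ∈ B with hbad1
  set bad2 : ℕ → Prop := fun j => ∃ z ∈ E0, A + j * ρ ≤ z.im + 3 * Real.sqrt k * (z.re - 1 / 2) ∧
    z.im - 3 * Real.sqrt k * (z.re - 1 / 2) ≤ A + (j + 1) * ρ with hbad2
  set K : ℝ := (1536 + 8 * CU) * lam with hK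
  have hK0 : 0 ≤ K := by positivity
  -- local facts at points outside B
  have htJ : ∀ (j : ℕ) (t : ℝ), j < J → A + j * ρ ≤ t → t ≤ A + (j + 1) * ρ → |t - T| ≤ T / (4 * L) := by
    intro j t hj h1 h2
    rw [e4, abs_le]
    have h3 : (j:ℝ) + 1 ≤ J := by exact_mod_cast hj
    have h4 : ((j:ℝ) + 1) * ρ ≤ J * ρ := mul_le_mul_of_nonneg_right h3 hρ0.le
    have h5 : 0 ≤ (j:ℝ) * ρ := by positivity
    constructor <;> linarith
  have hlocal : ∀ (j : ℕ) (t : ℝ), j < J → A + j * ρ ≤ t → t ≤ A + (j + 1) * ρ → t ∉ B →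
      LGd (FT Ph) k lam t η0 ∧ (∀ z : ℂ, ‖z - t‖ ≤ k / lam / 16 → iteratedDeriv k (FT Ph) z = 0 →
        z.im = 0 ∧ iteratedDeriv (k + 1) (FT Ph) z ≠ 0) ∧ Low (FT Ph) k lam t := by
    intro j t hj h1 h2 h3
    have h4 := hBt t (htJ j t hj h1 h2) h3
    exact ⟨h4, hloca (FT Ph) ker_Ph.FT_diff loc_R.conj k hkLa lam t hlam0 hr100
      (lgd_mono hlam0 (by rw [hη0d]; exact min_le_left _ _) h4)⟩
  have hlocal2 : ∀ (j : ℕ) (t : ℝ), j < J → A + j * ρ ≤ t → t ≤ A + (j + 1) * ρ → t ∉ B →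
      (∀ a b : ℝ, t - k / lam / 16 ≤ a → b ≤ t + k / lam / 16 →
        (1 + ε / 3) * (Real.pi / lam) ≤ b - a →
        ∃ x : ℝ, a ≤ x ∧ x ≤ b ∧ iteratedDeriv k (FT Ph) x = 0) ∧
      (∀ x y : ℝ, t - k / lam / 16 ≤ x → x < y → y ≤ t + k / lam / 16 →
        iteratedDeriv k (FT Ph) x = 0 → iteratedDeriv k (FT Ph) y = 0 →
        (1 - ε / 3) * (Real.pi / lam) ≤ y - x) := by
    intro j t hj h1 h2 h3
    have h4 := hBt t (htJ j t hj h1 h2) h3
    exact hlocb (FT Ph) ker_Ph.FT_diff loc_R.conj k hkLb lam t hlam0 hr100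
      (lgd_mono hlam0 (by rw [hη0d]; exact min_le_right _ _) h4)
  have key := hRUN S (fun w => (analyticOrderNatAt (iteratedDeriv k (FT Ph)) w : ℝ)) A ρ K (1 / 128) J
    (fun j => bad1 j ∨ bad2 j) (fun w => by positivity) hρ0 hK0 (by linarith) (by norm_num) (by linarith)
    (fun w hw => ⟨(hSre w hw).1, by linarith [(hSre w hw).2], hSim w hw⟩)
    (fun w hw j hj h1 h2 => by
      by_contra hnb
      push Not at hnb
      obtain ⟨hn1, hn2⟩ := hnb
      rw [hbad1] at hn1
      push Not at hn1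
      obtain ⟨t, ht1, ht2, htB⟩ := hn1
      obtain ⟨_, hl1, _⟩ := hlocal j t hj ht1 ht2.le htB
      rcases le_or_gt |w.im| (r / 40) with him | him
      · -- close to the axis
        have hd : ‖w - t‖ ≤ k / lam / 16 := by
          have h3 : |w.re - t| ≤ r / 40 + r / 64 := by
            rw [abs_le]
            constructor <;> linarith
          have h4 : ‖w - t‖ ^ 2 ≤ (r / 16) ^ 2 := by
            rw [← normSq_eq_norm_sq, normSq_apply]
            simp only [sub_re, sub_im, ofReal_re, ofReal_im, sub_zero]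
            have h5 : (w.re - t) * (w.re - t) ≤ (r / 40 + r / 64) ^ 2 := by
              rw [← sq, ← sq_abs]
              exact pow_le_pow_left₀ (abs_nonneg _) h3 2
            have h6 : w.im * w.im ≤ (r / 40) ^ 2 := by
              rw [← sq, ← sq_abs]
              exact pow_le_pow_left₀ (abs_nonneg _) him 2
            have h7 : (r / 40 + r / 64) ^ 2 + (r / 40) ^ 2 ≤ (r / 16) ^ 2 := by
              have h8 := sq_nonneg r
              have e8 : (r / 40 + r / 64) ^ 2 + (r / 40) ^ 2 = r ^ 2 * ((1 / 40 + 1 / 64) ^ 2 + (1 / 40) ^ 2) := by ring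
              have e9 : (r / 16) ^ 2 = r ^ 2 * (1 / 16) ^ 2 := by ring
              rw [e8, e9]
              exact mul_le_mul_of_nonneg_left (by norm_num) h8
            linarith
          have h7 : ‖w - t‖ ≤ r / 16 := by
            have := pow_le_pow_iff_left₀ (norm_nonneg (w - t)) (show 0 ≤ r / 16 by positivity) (two_ne_zero)
            exact this.1 h4
          exact h7
        obtain ⟨h8, h9⟩ := hl1 w hd (hS w hw).1
        obtain ⟨s1, s2⟩ := hlocal2 j t hj ht1 ht2.le htB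
        rw [h8, abs_zero, add_zero] at h1
        rw [h8, abs_zero, sub_zero] at h2
        obtain ⟨D, hD⟩ : ∃ D, D = Real.pi / lam := ⟨_, rfl⟩
        have hD0 : 0 < D := by rw [hD]; positivity
        have hD4 : D ≤ 4 := by
          rw [hD, div_le_iff₀ hlam0]
          linarith [Real.pi_lt_four]
        have hDr : D ≤ r / 1000 := by
          have hk' : (4000 : ℝ) ≤ k := by exact_mod_cast hk4000
          rw [hD, hr, div_div, div_le_div_iff₀ hlam0 (by positivity)]
          nlinarith [Real.pi_lt_four]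
        refine (hS w hw).2.1 (ev_local hε hε1 hlam0 hk4000 s1 s2 hl1 (fun z hz hzw => ?_)
          (hS w hw).1 h8 ?_ (logq hε hT0 hLeps (hS w hw).2.2))
        · rw [← hr]
          rw [← hD] at hzw
          obtain ⟨u1, u2⟩ := abs_le.1 hzw
          obtain ⟨a3, a4⟩ := hSre w hw
          by_contra hzi
          push Not at hzi
          have him0 : z.im ≠ 0 := by
            intro h
            rw [h, abs_zero] at hzi
            linarith
          obtain ⟨z', hz1, hz2, hz3, hz4, hz5⟩ := hchain z (by linarith) him0 hz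
          obtain ⟨b, hb⟩ : ∃ b : ℝ, b = z'.re - 1 / 2 := ⟨_, rfl⟩
          rw [← hb] at hz4 hz5
          have hb0 : 0 < b := by linarith
          have hb1 : b ≤ 1 / 2 := by linarith
          obtain ⟨a1, a2⟩ := abs_le.1 hz5
          have hsb : b ≤ Real.sqrt k * b := by
            have := mul_le_mul_of_nonneg_right hsq1 hb0.le
            linarith
          have hsb0 : 0 ≤ Real.sqrt k * b := by positivity
          have hsb1 : Real.sqrt k * b ≤ Real.sqrt k / 2 := by
            have := mul_le_mul_of_nonneg_left hb1 hsq0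
            linarith
          have hbr : r / 44 ≤ b := by linarith
          apply hn2
          refine ⟨z', ⟨hz1, by linarith, hz3, ?_⟩, ?_, ?_⟩
          · rw [e4, abs_le]
            constructor <;> linarith
          · rw [← hb]
            linarith
          · rw [← hb]
            linarith
        · rw [← hr, abs_le]
          constructor <;> linarith
      · have him0 : w.im ≠ 0 := by
          intro h; rw [h, abs_zero] at him; linarith
        obtain ⟨z, hz1, hz2, hz3, hz4, hz5⟩ := hchain' w hw him0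
        obtain ⟨b, hb⟩ : ∃ b : ℝ, b = z.re - 1 / 2 := ⟨_, rfl⟩
        rw [← hb] at hz4 hz5
        have hb0 : 0 < b := by linarith
        have hb1 : b ≤ 1 / 2 := by linarith
        obtain ⟨a1, a2⟩ := abs_le.1 hz5
        have hsb : 11 / 10 * b ≤ 11 / 10 * (Real.sqrt k * b) := by
          have := mul_le_mul_of_nonneg_right hsq1 hb0.le
          linarith
        have hsb0 : 0 ≤ Real.sqrt k * b := by positivity
        have hsb1 : Real.sqrt k * b ≤ Real.sqrt k / 2 := by
          have := mul_le_mul_of_nonneg_left hb1 hsq0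
          linarith
        apply hn2
        refine ⟨z, ⟨hz1, by linarith, hz3, ?_⟩, ?_, ?_⟩
        · rw [e4, abs_le]
          obtain ⟨a3, a4⟩ := hSre w hw
          constructor <;> linarith
        · rw [← hb]
          linarith
        · rw [← hb]
          linarith)
    (fun j hj hnb => by
      push Not at hnb
      obtain ⟨hn1, hn2⟩ := hnb
      rw [hbad1] at hn1
      push Not at hn1
      obtain ⟨t, ht1, ht2, htB⟩ := hn1
      obtain ⟨hg, hl1, hlow⟩ := hlocal j t hj ht1 ht2.le htB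
      refine ⟨t, ht1, ht2.le, fun ℓ hℓ1 hℓ2 => ?_⟩
      have h3 := hJEN (FT Ph) k lam t η0 ker_Ph.FT_diff hkk4 hlam0 hη0.le hη1 hg hlow (max (4 * ℓ) r)
        (le_max_right _ _) (max_le (by linarith) (by linarith)) (S.filter fun w : ℂ => ‖w - (t:ℂ)‖ ≤ 4 * ℓ)
        (fun w hw => by
          rw [Finset.mem_filter] at hw
          exact ⟨(hS w hw.1).1, hw.2.trans (le_max_left _ _)⟩)
      refine h3.trans ?_
      have h4 : max (4 * ℓ) r ≤ 64 * ℓ := max_le (by linarith) (by linarith)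
      calc 24 * lam * max (4 * ℓ) r ≤ 24 * lam * (64 * ℓ) := by gcongr
        _ = 1536 * lam * ℓ := by ring
        _ ≤ K * ℓ := by
            rw [hK]
            have hℓ0 : 0 < ℓ := lt_of_lt_of_le hρ0 hℓ1
            have : 0 ≤ 8 * CU * lam * ℓ := by positivity
            linarith)
    (fun t ht1 ht2 => by
      have ht3 : T0u ≤ t := by linarith
      have ht4 : t ≤ 2 * T := by linarith
      have ht5 : 0 < t := by linarith
      have h3 := hunit t ht3 k (by
        have h5 : Real.log T ≤ Real.log (2 * t) := Real.log_le_log hT0 (by linarith)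
        rw [Real.log_mul (by norm_num) ht5.ne'] at h5
        have h6 := Real.log_two_lt_d9
        linarith) (S.filter fun w : ℂ => ‖w - (t:ℂ)‖ ≤ 2) (fun w hw => by
        rw [Finset.mem_filter] at hw
        exact ⟨(hS w hw.1).1, hw.2⟩)
      refine h3.trans ?_
      have h4 : Real.log t ≤ 2 * L := by
        calc Real.log t ≤ Real.log (2 * T) := Real.log_le_log ht5 ht4
          _ = Real.log 2 + L := by rw [Real.log_mul (by norm_num) hT0.ne']
          _ ≤ 2 * L := by
              have := Real.log_two_lt_d9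
              linarith
      calc CU * Real.log t ≤ CU * (2 * L) := by gcongr
        _ ≤ CU * (2 * (4 * lam)) := by gcongr
        _ ≤ K := by
            rw [hK]
            have : 0 ≤ 1536 * lam := by positivity
            linarith)
  refine key.trans ?_
  -- counting the bad windows
  have hcard : ((Finset.range J).filter fun j => bad1 j ∨ bad2 j).card ≤
      ((Finset.range J).filter bad1).card + ((Finset.range J).filter bad2).card := by
    rw [Finset.filter_or]
    exact Finset.card_union_le _ _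
  have hb1 : ρ * (((Finset.range J).filter bad1).card : ℝ) ≤ Real.exp (-c1 * k) * Y := by
    apply card_windows (A := A) hρ0 (by positivity) _ _ hBv
    intro j hj t ht
    exact (Finset.mem_filter.1 hj).2 t ht.1 ht.2
  have hb2 : ρ * (((Finset.range J).filter bad2).card : ℝ) ≤ 8 * Real.sqrt k * (Real.exp (-c2 * k) * Y) := by
    set s2 := (Finset.range J).filter bad2 with hs2
    have hch : ∀ j : ℕ, ∃ z : ℂ, j ∈ s2 → z ∈ E0 ∧ A + j * ρ ≤ z.im + 3 * Real.sqrt k * (z.re - 1 / 2) ∧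
        z.im - 3 * Real.sqrt k * (z.re - 1 / 2) ≤ A + (j + 1) * ρ := by
      intro j
      by_cases hj : j ∈ s2
      · obtain ⟨z, h1, h2, h3⟩ := (Finset.mem_filter.1 hj).2
        exact ⟨z, fun _ => ⟨h1, h2, h3⟩⟩
      · exact ⟨0, fun h => absurd h hj⟩
    choose g hg using hch
    have h1 := card_windows2 (A := A) (κ := Real.sqrt k) hρ0 hsq1 s2 g (fun j hj => by
      obtain ⟨a1, a2, a3⟩ := hg j hj
      refine ⟨?_, a2, a3⟩
      have := a1.2.1
      linarith)
    refine h1.trans (mul_le_mul_of_nonneg_left ?_ (by positivity))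
    apply hB0
    intro z hz
    obtain ⟨j, hj, hjz⟩ := Finset.mem_image.1 hz
    rw [← hjz]
    exact (hg j hj).1
  have hcnt : ρ * ((((Finset.range J).filter fun j => bad1 j ∨ bad2 j).card : ℕ) : ℝ) ≤
      (1 + 8 * Real.sqrt k) * (Real.exp (-c * k) * Y) := by
    have h1 : ((((Finset.range J).filter fun j => bad1 j ∨ bad2 j).card : ℕ) : ℝ) ≤
        (((Finset.range J).filter bad1).card : ℝ) + (((Finset.range J).filter bad2).card : ℝ) := by exact_mod_cast hcard
    have e1 : Real.exp (-c1 * k) ≤ Real.exp (-c * k) := by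
      apply Real.exp_le_exp.2
      have : c ≤ c1 := min_le_left _ _
      have := mul_le_mul_of_nonneg_right this hk0.le
      linarith
    have e2 : Real.exp (-c2 * k) ≤ Real.exp (-c * k) := by
      apply Real.exp_le_exp.2
      have : c ≤ c2 := min_le_right _ _
      have := mul_le_mul_of_nonneg_right this hk0.le
      linarith
    calc ρ * ((((Finset.range J).filter fun j => bad1 j ∨ bad2 j).card : ℕ) : ℝ)
        ≤ ρ * ((((Finset.range J).filter bad1).card : ℝ) + (((Finset.range J).filter bad2).card : ℝ)) := by gcongr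
      _ = ρ * (((Finset.range J).filter bad1).card : ℝ) + ρ * (((Finset.range J).filter bad2).card : ℝ) := by ring
      _ ≤ Real.exp (-c1 * k) * Y + 8 * Real.sqrt k * (Real.exp (-c2 * k) * Y) := add_le_add hb1 hb2
      _ ≤ Real.exp (-c * k) * Y + 8 * Real.sqrt k * (Real.exp (-c * k) * Y) := by gcongr
      _ = _ := by ring
  obtain ⟨N, hN⟩ : ∃ N : ℕ, N = ((Finset.range J).filter fun j => bad1 j ∨ bad2 j).card := ⟨_, rfl⟩
  have hcard' : ∀ inst : DecidablePred fun j => bad1 j ∨ bad2 j,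
      (@Finset.filter ℕ (fun j => bad1 j ∨ bad2 j) inst (Finset.range J)).card = N := by
    intro inst
    rw [hN]
    exact congrArg (fun i => (@Finset.filter ℕ (fun j => bad1 j ∨ bad2 j) i (Finset.range J)).card)
      (Subsingleton.elim inst _)
  rw [hcard' _]
  rw [← hN] at hcnt
  calc (1 + 2 / (1 / 128)) * K * ρ * (N : ℝ) = 257 * K * (ρ * (N : ℝ)) := by ring
    _ ≤ 257 * K * ((1 + 8 * Real.sqrt k) * (Real.exp (-c * k) * Y)) := by gcongr
    _ = (257 * (1536 + 8 * CU) * (1 + 8 * Real.sqrt k) * Real.exp (-c * k)) * (lam * Y) := by rw [hK]; ring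
    _ ≤ Real.exp (-(c / 2) * k) * (lam * Y) := by gcongr
    _ ≤ Real.exp (-(c / 2) * k) * T := by
        gcongr
        calc lam * Y ≤ L / 2 * Y := by gcongr
          _ = T / 2 := by rw [hY]; field_simp
          _ ≤ T := by linarith

theorem wine_proof : S_LGU → S_LOC → S_SPC → S_JEN → S_RUN → S_B0U → S_CHAINU → S_UNITU →
    S_WINE := by
  intro hLG hLOC hSPC hJEN hRUN hB0 hCH hU ε hε
  obtain ⟨c, hc, k0, T0, h⟩ := wine_half hLG hLOC hSPC hJEN hRUN hB0 hCH hU (min ε (1 / 2))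
    (lt_min hε (by norm_num)) (min_le_right _ _)
  exact ⟨c, hc, k0, T0, fun T hT k hk hkT S hS => h T hT k hk hkT S fun w hw =>
    ⟨(hS w hw).1, fun he => (hS w hw).2.1 (ev_mono (min_le_left _ _) he), (hS w hw).2.2⟩⟩

end Pool.Agent.H339.ED
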